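import Pool.Agent.helper36.UT.Spec

set_option autoImplicit false

/-! Module `FOB` of project UT (MP_37e5fa_nt): true universal sentences do not prove that `n ^ n + 1` is composite for infinitely many
`n = 2 ^ (2 ^ s)`. -/

open Filter Polynomial FirstOrder FirstOrder.Language

namespace Pool.Agent.UnivT

theorem FOB_univ : Theory.IsUniversal UnivTh := ⟨fun _ h => h.1⟩

/-- the term `s + 2 ^ s` -/
def FOB_t : Lb.Term (Empty ⊕ Fin 4) := tAdd (tVar 1) (tPow (tVar 1))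

theorem FOB_def : infinitelyManyCompositeNN = (matrix FOB_t).ex.ex.ex.all := rfl

theorem FOB_lt (x y : Lb.Term (Empty ⊕ Fin 4)) : (fLt x y).IsQF :=
  (BoundedFormula.IsAtomic.rel (L := Lb) Rl.lt ![x, y]).isQF

theorem FOB_qf (t : Lb.Term (Empty ⊕ Fin 4)) : (matrix t).IsQF :=
  (FOB_lt _ _).inf (((FOB_lt _ _).inf (FOB_lt _ _)).inf (BoundedFormula.IsAtomic.equal _ _).isQF)

theorem FOB_r (v : Empty → ℤ) (xs : Fin 4 → ℤ) : (matrix FOB_t).Realize v xs ↔
    xs 0 < xs 1 ∧ (1 < xs 2 ∧ 1 < xs 3) ∧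
      xs 2 * xs 3 = 2 ^ ((2 : ℤ) ^ (xs 1 + 2 ^ (xs 1).toNat).toNat).toNat + 1 := by
  unfold matrix
  rw [BoundedFormula.realize_inf, BoundedFormula.realize_inf, BoundedFormula.realize_inf,
    BoundedFormula.realize_bdEqual]
  exact Iff.rfl

theorem FOB_tow (h : ℕ) : h < tow h := by
  induction h with
  | zero => exact Nat.zero_lt_one
  | succ h ih =>
    have h1 : tow h < 2 ^ tow h := Nat.lt_two_pow_self
    show h + 1 < 2 ^ tow h
    omega

theorem FOB_x0 : RR fun H => (tow H : ℤ) := by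
  refine ⟨0, 0, 1, fun _ => 1, Eventually.of_forall fun H => ?_⟩
  simp

theorem FOB_e3 (k : ℕ) : ((2 : ℤ) ^ k).toNat = 2 ^ k := by
  have : ((2 : ℤ) ^ k) = ((2 ^ k : ℕ) : ℤ) := by push_cast; rfl
  rw [this, Int.toNat_natCast]

theorem FOB (hLGD : LGD_stmt) (hTRM : TRM_stmt) (hFAC : FAC_stmt) : FOB_stmt := by
  intro hN
  have hu := FOB_univ
  let U : Ultrafilter ℕ := hyperfilter ℕ
  have hU : (U : Filter ℕ) ≤ atTop := Nat.hyperfilter_le_atTop
  let P : Type := (U : Filter ℕ).Product (fun _ => ℤ)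
  let x0 : P := ((fun m : ℕ => (tow m : ℤ)) : (U : Filter ℕ).Product (fun _ => ℤ))
  let S : Lb.Substructure P := Substructure.closure Lb {x0}
  have hP : P ⊨ UnivTh := ⟨fun φ hφ => (Ultraproduct.sentence_realize φ).mpr (Eventually.of_forall fun _ => hφ.2)⟩
  have hx0 : x0 ∈ S := Substructure.subset_closure (Set.mem_singleton _)
  have hne : Nonempty S := ⟨⟨x0, hx0⟩⟩
  have hS : S ⊨ infinitelyManyCompositeNN := hN.realize_sentence S
  rw [FOB_def] at hS
  have h2 := hS ⟨x0, hx0⟩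
  rw [BoundedFormula.realize_ex] at h2
  obtain ⟨s, hs⟩ := h2
  rw [BoundedFormula.realize_ex] at hs
  obtain ⟨x, hx⟩ := hs
  rw [BoundedFormula.realize_ex] at hx
  obtain ⟨y, hy⟩ := hx
  have hterm : ∀ z : S, ∃ g : ℕ → ℤ, RR g ∧ (z : P) = (g : (U : Filter ℕ).Product (fun _ => ℤ)) := by
    intro z
    obtain ⟨t, ht⟩ := Substructure.mem_closure_iff_exists_term.mp z.2
    refine ⟨fun H => t.realize fun _ => (tow H : ℤ), hTRM (fun _ H => (tow H : ℤ)) (fun _ => FOB_x0) t, ?_⟩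
    rw [← ht]
    have e : ((↑) : ({x0} : Set P) → P) = fun i : ({x0} : Set P) =>
        (((fun _ m => (tow m : ℤ) : ({x0} : Set P) → ℕ → ℤ) i : ℕ → ℤ) : (U : Filter ℕ).Product (fun _ => ℤ)) := by
      funext i
      exact i.2
    rw [e]
    exact Ultraproduct.term_realize_cast (M := fun _ : ℕ => ℤ) (u := U) _ t
  obtain ⟨n, hn, hn'⟩ := hterm s
  obtain ⟨g, hg, hg'⟩ := hterm x
  obtain ⟨h, hh, hh'⟩ := hterm y
  rw [← (FOB_qf FOB_t).realize_embedding S.subtype] at hy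
  have e1 : (S.subtype ∘ (default : Empty → S)) =
      fun i : Empty => (((fun _ _ => 0 : Empty → ℕ → ℤ) i : ℕ → ℤ) : (U : Filter ℕ).Product (fun _ => ℤ)) := by
    funext i
    exact i.elim
  have e2 : (S.subtype ∘ (Fin.snoc (Fin.snoc (Fin.snoc (Fin.snoc default ⟨x0, hx0⟩ : Fin 1 → S) s : Fin 2 → S) x : Fin 3 → S) y : Fin 4 → S)) =
      fun i : Fin 4 => (((![fun m => (tow m : ℤ), n, g, h] : Fin 4 → ℕ → ℤ) i : ℕ → ℤ) :
        (U : Filter ℕ).Product (fun _ => ℤ)) := by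
    funext i
    fin_cases i
    · rfl
    · exact hn'
    · exact hg'
    · exact hh'
  rw [e1, e2] at hy
  have h3 := (Ultraproduct.boundedFormula_realize_cast (M := fun _ : ℕ => ℤ) (u := U) (matrix FOB_t) _ _).mp hy
  have h4 : ∀ᶠ m in (U : Filter ℕ), (tow m : ℤ) < n m ∧ (1 < g m ∧ 1 < h m) ∧
      g m * h m = 2 ^ ((2 : ℤ) ^ (n m + 2 ^ (n m).toNat).toNat).toNat + 1 := by
    filter_upwards [h3] with m hm
    rw [FOB_r] at hm
    exact hm
  -- `n` tends to infinity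
  have hnt : Tendsto n atTop atTop := by
    obtain ⟨k, hk⟩ := hn
    rcases (hLGD k).2.2.2 n hk with ⟨c, hc⟩ | h5 | h5
    · exfalso
      have hc1 : ∀ᶠ m in (U : Filter ℕ), n m = c := hU hc
      have hc2 : ∀ᶠ m in (U : Filter ℕ), c.toNat ≤ m := hU (eventually_ge_atTop c.toNat)
      obtain ⟨m, ⟨hm1, -⟩, hm2, hm3⟩ := (h4.and (hc1.and hc2)).exists
      have h6 := FOB_tow m
      have h7 : c ≤ m := by omega
      rw [hm2] at hm1
      have h8 : (m : ℤ) < tow m := by exact_mod_cast h6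
      linarith
    · exact h5
    · exfalso
      have hc1 : ∀ᶠ m in (U : Filter ℕ), n m ≤ 0 := hU (h5.eventually (eventually_le_atBot 0))
      obtain ⟨m, ⟨hm1, -⟩, hm2⟩ := (h4.and hc1).exists
      have h8 : (0 : ℤ) ≤ tow m := Int.natCast_nonneg _
      linarith
  have hns : RR fun H => n H + 2 ^ (n H).toNat :=
    hTRM (β := Unit) (fun _ => n) (fun _ => hn) (tAdd (Term.var ()) (tPow (Term.var ())))
  have hnst : Tendsto (fun H => n H + 2 ^ (n H).toNat) atTop atTop := by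
    refine tendsto_atTop_mono (fun H => ?_) hnt
    have : (0 : ℤ) ≤ 2 ^ (n H).toNat := by positivity
    linarith
  have h5 := hFAC g h (fun H => n H + 2 ^ (n H).toNat) hg hh hns hnst (by
    have h6 : ∃ᶠ H in (U : Filter ℕ), g H * h H = 2 ^ (2 ^ (n H + 2 ^ (n H).toNat).toNat) + 1 := by
      refine Eventually.frequently ?_
      filter_upwards [h4] with m hm
      rw [FOB_e3] at hm
      exact hm.2.2
    exact h6.filter_mono hU)
  have h6 : ∀ᶠ m in (U : Filter ℕ), |g m| = 1 ∨ |h m| = 1 := hU h5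
  obtain ⟨m, ⟨-, ⟨ha, hb⟩, -⟩, hm⟩ := (h4.and h6).exists
  rcases hm with h6 | h6
  · rw [abs_of_pos (by linarith)] at h6
    linarith
  · rw [abs_of_pos (by linarith)] at h6
    linarith

end Pool.Agent.UnivT
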