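import Pool.Agent.helper36.UT.Spec

set_option autoImplicit false

/-! Module `MNE` of project UT (MP_37e5fa_nt): a smallest exponent up to a constant. -/

open Filter Polynomial FirstOrder FirstOrder.Language

namespace Pool.Agent.UnivT

theorem MNE (hLGD : LGD_stmt) : MNE_stmt := by
  intro k l
  obtain ⟨-, hsub, -, htri⟩ := hLGD k
  induction l with
  | nil => intro h; exact absurd rfl h
  | cons x m ih =>
    intro _ hl
    by_cases hm : m = []
    · subst hm
      refine ⟨x, by simp, 0, ?_⟩
      intro y hy
      rw [List.mem_singleton] at hy
      subst hy
      exact Eventually.of_forall fun H => by simp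
    · obtain ⟨y, hy, C, hC⟩ := ih hm fun z hz => hl z (List.mem_cons_of_mem _ hz)
      have hd : Lev k fun H => x.2 H - y.2 H :=
        hsub _ _ (hl x List.mem_cons_self) (hl y (List.mem_cons_of_mem _ hy))
      rcases htri _ hd with ⟨c, hc⟩ | h | h
      · refine ⟨y, List.mem_cons_of_mem _ hy, min C c, ?_⟩
        intro z hz
        rcases List.mem_cons.1 hz with rfl | hz
        · filter_upwards [hc] with H hH
          have h1 := min_le_right C c
          omega
        · filter_upwards [hC z hz] with H hH
          have h1 := min_le_left C c
          omega
      · refine ⟨y, List.mem_cons_of_mem _ hy, C, ?_⟩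
        intro z hz
        rcases List.mem_cons.1 hz with rfl | hz
        · filter_upwards [h.eventually (eventually_ge_atTop C)] with H hH
          omega
        · exact hC z hz
      · refine ⟨x, List.mem_cons_self, 0, ?_⟩
        intro z hz
        rcases List.mem_cons.1 hz with rfl | hz
        · exact Eventually.of_forall fun H => by omega
        · filter_upwards [h.eventually (eventually_le_atBot C), hC z hz] with H h1 h2
          omega

end Pool.Agent.UnivT
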