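import Pool.Agent.helper36.UT.Spec

set_option autoImplicit false

/-! Module `NRM` of project UT (MP_37e5fa_nt): every sum has a normal form with exponents among the given ones. -/

open Filter Polynomial FirstOrder FirstOrder.Language

namespace Pool.Agent.UnivT

theorem NRM (hINS : INS_stmt) : NRM_stmt := by
  intro C hC l
  induction l with
  | nil =>
    intro _
    exact ⟨[], ⟨List.Pairwise.nil, fun x hx => absurd hx List.not_mem_nil⟩,
      fun z hz => absurd hz List.not_mem_nil, Eventually.of_forall fun H => rfl⟩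
  | cons x l ih =>
    intro hl
    obtain ⟨l1, h1, h2, h3⟩ := ih fun y hy => hl y (List.mem_cons_of_mem _ hy)
    have h4 : ∀ y ∈ l1, C y.2 := by
      intro y hy
      obtain ⟨z, hz, hzy⟩ := h2 y hy
      rw [hzy]
      exact hl z (List.mem_cons_of_mem _ hz)
    obtain ⟨l', h5, h6, h7⟩ := hINS C hC x l1 (hl x List.mem_cons_self) h4 h1
    refine ⟨l', h5, ?_, ?_⟩
    · intro z hz
      rcases h6 z hz with h | ⟨y, hy, h⟩
      · exact ⟨x, List.mem_cons_self, h⟩
      · obtain ⟨w, hw, hwy⟩ := h2 y hy
        exact ⟨w, List.mem_cons_of_mem _ hw, h.trans hwy⟩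
    · filter_upwards [h3, h7] with H e1 e2
      rw [ev_cons, e1, ← ev_cons, e2]

end Pool.Agent.UnivT
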