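import Pool.Agent.helper36.UT.Spec

set_option autoImplicit false

/-! Module `PER` of project UT (MP_37e5fa_nt): the powers of two modulo `c` are eventually periodic. -/

open Filter Polynomial FirstOrder FirstOrder.Language

namespace Pool.Agent.UnivT

theorem PER_aux (a b : ℕ) (hb : Odd b) (m n : ℕ) (hm : a ≤ m) (hmn : m ≤ n)
    (h : m % b.totient = n % b.totient) : 2 ^ m % (2 ^ a * b) = 2 ^ n % (2 ^ a * b) := by
  have hcop : Nat.Coprime 2 b := (Nat.coprime_two_left).2 hb
  have h1 : b.totient ∣ n - m := (Nat.modEq_iff_dvd' hmn).1 h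
  obtain ⟨j, hj⟩ := h1
  have h2 : 2 ^ (b.totient * j) ≡ 1 [MOD b] := by
    rw [pow_mul]
    have h3 := (Nat.ModEq.pow_totient hcop).pow j
    rwa [one_pow] at h3
  have h3 : 2 ^ (m - a) ≡ 2 ^ (n - a) [MOD b] := by
    have e : n - a = (m - a) + b.totient * j := by omega
    rw [e, pow_add]
    have h4 := (h2.mul_left (2 ^ (m - a))).symm
    rwa [mul_one] at h4
  have h5 := h3.mul_left' (2 ^ a)
  rw [← pow_add, ← pow_add] at h5
  have e1 : a + (m - a) = m := by omega
  have e2 : a + (n - a) = n := by omega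
  rw [e1, e2] at h5
  exact h5

theorem PER : PER_stmt := by
  intro c hc
  obtain ⟨a, b, hb, rfl⟩ := Nat.exists_eq_two_pow_mul_odd hc.ne'
  have hb0 : 0 < b := hb.pos
  refine ⟨b.totient, a, Nat.totient_pos.2 hb0, ?_, ?_⟩
  · by_cases h1 : b = 1
    · subst h1
      rw [Nat.totient_one, mul_one]
      by_cases ha : a = 0
      · right
        rw [ha, pow_zero]
      · left
        exact Nat.one_lt_pow ha (by norm_num)
    · left
      have h2 : b.totient < b := Nat.totient_lt b (by omega)
      have h3 : b ≤ 2 ^ a * b := Nat.le_mul_of_pos_left b (Nat.pow_pos (by norm_num))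
      exact lt_of_lt_of_le h2 h3
  · intro m n hm hn h
    rcases le_total m n with hmn | hmn
    · exact PER_aux a b hb m n hm hmn h
    · exact (PER_aux a b hb n m hn hmn h.symm).symm

end Pool.Agent.UnivT
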